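import Pool.Agent.Helper85.LC.Final

/-!
# Long cycles in random subgraphs of graphs of large average degree
-/

namespace Pool.Agent.Results.MP_816dee_pr.AverageDegreeLongCycles

open Filter Topology Pool.H85.LC

/-- Let `G k` be finite graphs with average degree at least `k` and let `p k * k → ∞`. Then
asymptotically almost surely `G_p` contains a cycle of length at least `(1 - o(1)) k`. -/
theorem result (V : ℕ → Type) [∀ k, Fintype (V k)] [∀ k, Nonempty (V k)]
    (G : ∀ k, SimpleGraph (V k)) (p : ℕ → ℝ) (hp : ∀ k, 0 ≤ p k ∧ p k ≤ 1)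
    (hω : Tendsto (fun k : ℕ => p k * k) atTop atTop)
    (hG : ∀ k : ℕ, (k : ℝ) ≤ 2 * (G k).edgeSet.ncard / Fintype.card (V k)) :
    ∃ ε : ℕ → ℝ, Tendsto ε atTop (𝓝 0) ∧
      Tendsto (fun k => gp (G k) (p k) (fun H => HasCycle H ((1 - ε k) * k))) atTop (𝓝 1) :=
  Pool.H85.LC.final V G p hp hω hG

end Pool.Agent.Results.MP_816dee_pr.AverageDegreeLongCycles
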